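import Pool.Agent.Helper37.TW3.Defs
import Pool.Agent.Helper45.TW.SFin

/-!
# Project TW3, block W8: the transfer from `StmtTwo` to Galois sections
-/

set_option autoImplicit false
set_option linter.unusedSectionVars false

namespace Pool.Agent.TW3

open VC Polynomial NumberField Filter Topology Pool.Agent.SC Pool.Agent.L Pool.Agent.M
  Pool.Agent.TW Pool.Agent.Helper91.Sect
open Pool.Agent.TOW (Au NX Infp StmtPX1)

noncomputable section

/-- Some curve over `k` which maps onto `y² = c f(x)` has a section which agrees modulo `2` neither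
with the point at infinity nor with a point `(α, 0)`, `α ∈ k` a root of `f`. -/
def Oth3 {k : Type} [Field k] (f : k[X]) (c : k) : Prop :=
  ∃ (K : Type) (_ : Field K) (_ : Algebra k K) (x y : K), Transcendental k x ∧
    y ^ 2 = algebraMap k K c * aeval x f ∧ ∃ s : GaloisSection k K, ¬ AgrInf s x y 2 ∧
      ∀ α : k, eval α f = 0 → ¬ AgrInf s (x - algebraMap k K α)⁻¹ y 2

/-- The conditions on `f` do not depend on the algebraic closure. -/
theorem nd_transport {k E E' : Type} [Field k] [Field E] [Algebra k E] [Field E'] [Algebra k E']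
    (e : E ≃ₐ[k] E') {f : k[X]} (h : ND k E f) : ND k E' f := by
  have hroot : ∀ p : E, aeval p f = 0 → aeval (e p) f = 0 := fun p hp => by
    rw [show e p = (e : E →ₐ[k] E') p from rfl, aeval_algHom_apply, hp, map_zero]
  have hne : ∀ (p : E) (b : k), p ≠ algebraMap k E b → e p ≠ algebraMap k E' b := by
    intro p b hp h1
    apply hp
    apply e.injective
    rw [h1, e.commutes]
  refine ⟨fun b hb => ?_, fun b hb => ?_, fun a b ha hb hab => ?_⟩
  · obtain ⟨p, h1, h2, h3⟩ := h.odd b hb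
    exact ⟨e p, hroot p h1, hne p b h2, by rwa [minpoly.algEquiv_eq e p]⟩
  · obtain ⟨p, q, h1, h2, h3, h4, h5, h6⟩ := h.one b hb
    refine ⟨e p, e q, hroot p h1, hroot q h2, hne p b h3, hne q b h4, e.injective.ne h5, ?_⟩
    intro d hd h7
    have h8 : ({e p, e q} : Set E') = (e : E →ₐ[k] E') '' {p, q} := by
      rw [Set.image_pair]
      rfl
    rw [h8, ← IntermediateField.adjoin_map] at hd
    obtain ⟨d', hd', rfl⟩ := hd
    refine h6 d' hd' (e.injective ?_)
    rw [map_pow, map_mul, map_sub, map_sub, e.commutes]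
    exact h7
  · obtain ⟨p, h1, h2, h3, h4⟩ := h.two a b ha hb hab
    refine ⟨e p, hroot p h1, hne p a h2, hne p b h3, ?_⟩
    intro d hd h7
    have h8 : ({e p} : Set E') = (e : E →ₐ[k] E') '' {p} := by
      rw [Set.image_singleton]
      rfl
    rw [h8, ← IntermediateField.adjoin_map] at hd
    obtain ⟨d', hd', rfl⟩ := hd
    refine h4 d' hd' (e.injective ?_)
    rw [map_pow, map_mul, map_sub, map_sub, e.commutes, e.commutes]
    exact h7

/-- **The transfer** for `y² = c f(x)`: infinity and the points `(α, 0)`. -/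
theorem trS3 (hGC : StmtGC) (k : Type) [Field k] [NumberField k]
    (f : k[X]) (hsep : f.Separable) (hodd : Odd f.natDegree) (hdeg : 5 ≤ f.natDegree) :
    ∃ (E U : Type) (_ : Field E) (_ : Field U) (_ : Algebra k E) (_ : Algebra E U)
      (_ : Algebra (FractionRing k[X]) U) (_ : Algebra k U) (_ : IsScalarTower k E U)
      (_ : IsScalarTower k (FractionRing k[X]) U) (r : U),
      Pool.Agent.TOWS.Hyp E (algebraMap k[X] (FractionRing k[X]) X) f r ∧
      ∀ c : k, c ≠ 0 → ∀ (K : Type) [Field K] [Algebra k K] (x y : K), Transcendental k x →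
        y ^ 2 = algebraMap k K c * aeval x f → ∀ s : GaloisSection k K,
        ∃ Φ : (E ≃ₐ[k] E) →* (U ≃+* U), Act (K0 := FractionRing k[X]) r c Φ ∧
          (∀ m : ℕ, 0 < m → ∀ w ∈ Lev k x y m, w ∈ Kur k K) ∧
          ∀ m : ℕ, 0 < m → (∀ T : U ≃+* U, Au E (FractionRing k[X]) T →
              ∀ z ∈ NX E (FractionRing k[X]) r m, T z ∈ NX E (FractionRing k[X]) r m) →
            ∀ Q : Place E (NX E (FractionRing k[X]) r m),
            (∀ g : E ≃ₐ[k] E, Moves (Φ g) _ Q Q) →
            (Infp (algebraMap k[X] (FractionRing k[X]) X) Q → AgrInf s x y m) ∧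
            ∀ α : k, Infp (algebraMap k[X] (FractionRing k[X]) X -
              algebraMap k (FractionRing k[X]) α)⁻¹ Q →
              AgrInf s (x - algebraMap k K α)⁻¹ y m := by
  obtain ⟨E, U, _, _, _, _, _, _, _, _, r, G, hsec⟩ :=
    trX k (FractionRing k[X]) (algebraMap k[X] (FractionRing k[X]) f) (hGC k f hsep hdeg)
  have G' := G
  rw [← aeval_X97] at G'
  refine ⟨E, U, inferInstance, inferInstance, inferInstance, inferInstance, inferInstance,
    inferInstance, inferInstance, inferInstance, r, ⟨G', adjoin_X97, trans_X97, hsep, hodd, hdeg⟩,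
    fun c hc0 K _ _ x y hx hy s => ?_⟩
  have hinj : Function.Injective ((aeval x : k[X] →ₐ[k] K) : k[X] →+* K) := by
    have := transcendental_iff_injective.1 hx
    exact this
  let φ : FractionRing k[X] →+* K := IsFractionRing.lift hinj
  let _ : Algebra (FractionRing k[X]) K := φ.toAlgebra
  have hφ : ∀ p : k[X], algebraMap (FractionRing k[X]) K (algebraMap k[X] (FractionRing k[X]) p) =
      aeval x p := fun p => IsFractionRing.lift_algebraMap hinj p
  have hst' : IsScalarTower k (FractionRing k[X]) K := by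
    refine IsScalarTower.of_algebraMap_eq fun a => ?_
    have e1 : algebraMap k (FractionRing k[X]) a = algebraMap k[X] (FractionRing k[X]) (C a) := rfl
    rw [e1, hφ, aeval_C]
  obtain ⟨Φ, hΦ, j, hj1, hj2, hj3, hj4, hj5⟩ := hsec c hc0 K y (by rw [hφ, hy]) s
  have hx₀ : algebraMap (FractionRing k[X]) K (algebraMap k[X] (FractionRing k[X]) X) = x := by
    rw [hφ, aeval_X]
  refine ⟨Φ, hΦ, fun m hm w hw => ?_, fun m hm hst Q hQΦ => ⟨fun hQ => ?_, fun α hQ => ?_⟩⟩
  · rw [← hx₀] at hw
    obtain ⟨u, hu, rfl⟩ := lev_sub97 (x₀ := algebraMap k[X] (FractionRing k[X]) X) G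
      (by rw [hφ, hy]) hj1 hj2 hj3 hm hw
    exact hj4 u
  · have h2 := agr97 (x₀ := algebraMap k[X] (FractionRing k[X]) X) G (by rw [hφ, hy]) hj1 hj2 hj3
      hm hst hΦ (s := s) hj4 hj5 hQ hQΦ
    rwa [hx₀] at h2
  · have h2 := agr97 (x₀ := (algebraMap k[X] (FractionRing k[X]) X -
      algebraMap k (FractionRing k[X]) α)⁻¹) G (by rw [hφ, hy]) hj1 hj2 hj3
      hm hst hΦ (s := s) hj4 hj5 hQ hQΦ
    rwa [map_inv₀, map_sub, hx₀, ← IsScalarTower.algebraMap_apply k (FractionRing k[X]) K] at h2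

/-- **BLOCK W8.** For 100% of `c` every section of `y² = c f(x)`, and of every curve above it, agrees
modulo `2` with the point at infinity or with a point `(α, 0)`, `α ∈ k`. -/
theorem fin_two (hGC : StmtGC) (hPX1 : StmtPX1) (hT : StmtTwo) (k : Type) [Field k]
    [NumberField k] (f : k[X]) (hsep : f.Separable) (hodd : Odd f.natDegree)
    (hdeg : 5 ≤ f.natDegree) (hND : ND k (AlgebraicClosure k) f) :
    Rare (fun c : k => Oth3 f c) := by
  obtain ⟨E, U, _, _, _, _, _, _, _, _, r, H, hsec⟩ := trS3 hGC k f hsep hodd hdeg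
  have hclE : IsAlgClosed E := H.geo.clE
  have halE : Algebra.IsAlgebraic k E := H.geo.algE
  have hcl : IsAlgClosure k E := ⟨hclE, halE⟩
  have hND' : ND k E f := nd_transport (IsAlgClosure.equiv k (AlgebraicClosure k) E) hND
  have h1 := hT k (FractionRing k[X]) E U (algebraMap k[X] (FractionRing k[X]) X) f r H hND'
  have hst := (hPX1 k (FractionRing k[X]) E U _ r H.geo 1).1
  intro ε hε
  filter_upwards [h1 ε hε] with Y hY
  intro T hT hTc
  refine hY T hT fun c hc => ?_
  obtain ⟨hc0, hcY, K, _, _, x, y, hx, hy, s, hs, hs'⟩ := hTc c hc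
  obtain ⟨Φ, hΦ, _, h3⟩ := hsec c hc0 K x y hx hy s
  refine ⟨hc0, hcY, Φ, hΦ, ?_, fun α hα => ?_⟩
  · rintro ⟨Q, hQ, hQΦ⟩
    exact hs ((h3 (2 ^ 1) (by positivity) hst Q hQΦ).1 hQ)
  · rintro ⟨Q, hQ, hQΦ⟩
    exact hs' α hα ((h3 (2 ^ 1) (by positivity) hst Q hQΦ).2 α hQ)

end

end Pool.Agent.TW3
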